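import Mathlib

namespace Pool.Agent.Results.MP_a7495c_an.Disc

open MeasureTheory Set Filter Topology
open scoped ENNReal

/-- `ℝ^d`. -/
abbrev E (d : ℕ) : Type := EuclideanSpace ℝ (Fin d)

/-- `K` has positive Riesz `α`-capacity. -/
def PosCap {d : ℕ} (α : ℝ) (K : Set (E d)) : Prop :=
  ∃ ν : Measure (E d), IsProbabilityMeasure ν ∧ ν Kᶜ = 0 ∧
    ∫⁻ x, ∫⁻ y, ‖x - y‖ₑ ^ (-α) ∂ν ∂ν < ∞

open Classical in
/-- `f(y) = exp(-∑ |y - x_j|^{-α})`, with `f(x_j) = 0`. -/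
noncomputable def F {d m : ℕ} (α : ℝ) (x : Fin m → E d) (y : E d) : ℝ :=
  if y ∈ range x then 0 else Real.exp (-∑ j, ‖y - x j‖ ^ (-α))

/-- The Riesz Bernstein-Markov property. -/
def BM {d : ℕ} (α : ℝ) (K : Set (E d)) (μ : Measure (E d)) : Prop :=
  ∃ M : ℕ → ℝ, (∀ n, 0 < M n) ∧ Tendsto (fun n : ℕ => M n ^ (1 / n : ℝ)) atTop (𝓝 1) ∧
    ∀ n, 2 ≤ n → ∀ x : Fin (n - 1) → E d, (∀ j, x j ∈ K) →
      ∀ y ∈ K, F α x y ≤ M n * ∫ z in K, F α x z ∂μ

/-- `μ = ∑ c_k δ_{z_k}` with countably many `z_k ∈ K` and `c_k > 0`. -/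
def Discrete {d : ℕ} (K : Set (E d)) (μ : Measure (E d)) : Prop :=
  ∃ (ι : Type) (_ : Countable ι) (z : ι → E d) (c : ι → ℝ), (∀ k, z k ∈ K ∧ 0 < c k) ∧
    μ = Measure.sum fun k => ENNReal.ofReal (c k) • Measure.dirac (z k)

variable {d : ℕ} {α : ℝ}

lemma ball_le (hα : 0 < α) (ν : Measure (E d)) (x : E d) {r : ℝ} (hr : 0 < r) :
    ENNReal.ofReal ((2 * r) ^ (-α)) * ν (Metric.ball x r) * ν (Metric.ball x r) ≤
      ∫⁻ x, ∫⁻ y, ‖x - y‖ₑ ^ (-α) ∂ν ∂ν := by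
  rw [← lintegral_indicator_const Metric.isOpen_ball.measurableSet]
  refine lintegral_mono fun y => ?_
  by_cases hy : y ∈ Metric.ball x r
  · rw [indicator_of_mem hy, ← lintegral_indicator_const Metric.isOpen_ball.measurableSet]
    refine lintegral_mono fun z => ?_
    by_cases hz : z ∈ Metric.ball x r
    · rw [indicator_of_mem hz, ← ENNReal.ofReal_rpow_of_pos (by positivity), ENNReal.rpow_neg,
        ENNReal.rpow_neg, ENNReal.inv_le_inv, ← ofReal_norm]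
      refine ENNReal.rpow_le_rpow (ENNReal.ofReal_le_ofReal ?_) hα.le
      have := dist_triangle_right y z x
      rw [dist_eq_norm] at this
      linarith [Metric.mem_ball.1 hy, Metric.mem_ball.1 hz]
    · simp [hz]
  · simp [hy]

lemma good (hα : 0 < α) {K : Set (E d)} (h : PosCap α K) : ∃ C : ℝ, 1 ≤ C ∧
    ∀ (n m : ℕ), m ≤ n → ∀ x : Fin m → E d, ∃ y ∈ K, y ∉ range x ∧
      ∑ j, ‖y - x j‖ ^ (-α) ≤ C * (n + 1) ^ 3 := by
  obtain ⟨ν, _, h0, hI⟩ := h
  set I := (∫⁻ x, ∫⁻ y, ‖x - y‖ₑ ^ (-α) ∂ν ∂ν).toReal with hId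
  have I0 : 0 ≤ I := ENNReal.toReal_nonneg
  have h2 : 1 ≤ (2 : ℝ) ^ α := Real.one_le_rpow (by norm_num) hα.le
  refine ⟨2 ^ α * (I + 1), by nlinarith, fun n m hm x => ?_⟩
  set B : ℝ := (I + 1) * (n + 1) ^ 2 with hB
  have B0 : 0 < B := by positivity
  set r : ℝ := B ^ (-α⁻¹) / 2 with hr
  have r0 : 0 < r := by positivity
  have e1 : (2 * r) ^ (-α) = B := by
    rw [hr, mul_div_cancel₀ _ two_ne_zero, ← Real.rpow_mul B0.le]
    rw [show -α⁻¹ * -α = 1 by field_simp, Real.rpow_one]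
  have e2 : r ^ (-α) = 2 ^ α * B := by
    rw [← e1, Real.mul_rpow (by norm_num) r0.le, ← mul_assoc, ← Real.rpow_add (by norm_num)]
    simp
  have hb : ∀ j, ν.real (Metric.ball (x j) r) ≤ 1 / (n + 1) := fun j => by
    have := ENNReal.toReal_mono hI.ne (ball_le hα ν (x j) r0)
    rw [e1, ENNReal.toReal_mul, ENNReal.toReal_mul, ENNReal.toReal_ofReal B0.le, ← hId] at this
    rw [le_div_iff₀ (by positivity)]
    have t0 : 0 ≤ ν.real (Metric.ball (x j) r) * (n + 1) := by positivity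
    by_contra hc
    have hc' : 1 < ν.real (Metric.ball (x j) r) * (n + 1) := not_le.1 hc
    have : (I + 1) * (ν.real (Metric.ball (x j) r) * (n + 1)) ^ 2 ≤ I := by
      refine le_of_eq_of_le ?_ this
      simp only [hB, Measure.real]; ring
    nlinarith [mul_le_mul_of_nonneg_left (one_le_pow₀ hc'.le (n := 2)) (by linarith : 0 ≤ I + 1)]
  have : ∃ y ∈ K, ∀ j, y ∉ Metric.ball (x j) r := by
    by_contra hc
    push Not at hc
    have h1 : ν.real univ ≤ ν.real Kᶜ + ν.real (⋃ j, Metric.ball (x j) r) :=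
      (measureReal_mono (fun y _ => by
        by_cases hy : y ∈ K
        · exact Or.inr (mem_iUnion.2 (hc y hy))
        · exact Or.inl hy)).trans (measureReal_union_le _ _)
    have h3 := (measureReal_iUnion_fintype_le (μ := ν) fun j => Metric.ball (x j) r).trans
      (Finset.sum_le_card_nsmul _ _ _ fun j _ => hb j)
    simp only [Finset.card_univ, Fintype.card_fin, nsmul_eq_mul] at h3
    have h4 : (m : ℝ) * (1 / (n + 1)) < 1 := by
      rw [mul_one_div, div_lt_one (by positivity)]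
      exact_mod_cast Nat.lt_succ_of_le hm
    simp only [probReal_univ, Measure.real, h0] at h1 h3
    simp at h1
    linarith
  obtain ⟨y, hy, hy'⟩ := this
  refine ⟨y, hy, ?_, ?_⟩
  · rintro ⟨j, rfl⟩; exact hy' j (Metric.mem_ball_self r0)
  · have : ∀ j ∈ (Finset.univ : Finset (Fin m)), ‖y - x j‖ ^ (-α) ≤ 2 ^ α * B := fun j _ => by
      rw [← e2]
      exact Real.rpow_le_rpow_of_nonpos r0 (by simpa [dist_eq_norm] using hy' j) (by linarith)
    refine (Finset.sum_le_card_nsmul _ _ _ this).trans ?_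
    simp only [Finset.card_univ, Fintype.card_fin, nsmul_eq_mul, hB]
    have : (m : ℝ) ≤ n + 1 := by exact_mod_cast Nat.le_succ_of_le hm
    calc (m : ℝ) * (2 ^ α * ((I + 1) * (n + 1) ^ 2)) ≤ (n + 1) * (2 ^ α * ((I + 1) * (n + 1) ^ 2)) := by
          gcongr
      _ = _ := by ring

lemma near (hα : 0 < α) {m : ℕ} (x : Fin m → E d) {y z : E d} {B : ℝ} (hB : 1 ≤ B)
    (hy : y ∉ range x) (hS : ∑ j, ‖y - x j‖ ^ (-α) ≤ B)
    (hz : ‖z - y‖ ≤ 1 / (4 * (α + 1) * B) * B ^ (-α⁻¹)) : F α x y ≤ 3 * F α x z := by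
  set t : ℝ := 1 / (4 * (α + 1) * B) with ht
  have t0 : 0 < t := by positivity
  have t1 : 4 * (α + 1) * B * t = 1 := by rw [ht]; field_simp
  have t2 : t ≤ 1 / 4 := by nlinarith [mul_pos hα t0, mul_nonneg (mul_pos hα t0).le (sub_nonneg.2 hB), mul_nonneg t0.le (sub_nonneg.2 hB)]
  have t3 : 4 * α * t * B ≤ 1 := by nlinarith [mul_pos t0 (by linarith : 0 < B)]
  have t4 : (1 - t) ^ (-α) ≤ 1 + 4 * α * t := by
    rw [Real.rpow_def_of_pos (by linarith)]
    have a1 : -(2 * t) ≤ Real.log (1 - t) := by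
      have := Real.one_sub_inv_le_log_of_pos (by linarith : 0 < 1 - t)
      refine le_trans ?_ this
      have : (1 - t)⁻¹ ≤ 1 + 2 * t := by
        rw [inv_le_comm₀ (by linarith) (by linarith), inv_le_iff_one_le_mul₀ (by linarith)]
        nlinarith
      linarith
    have a2 : |2 * α * t| ≤ 1 := by
      rw [abs_of_pos (by positivity)]; nlinarith [mul_nonneg (mul_pos hα t0).le (sub_nonneg.2 hB)]
    have a3 := (abs_le.1 (Real.abs_exp_sub_one_le a2)).2
    rw [abs_of_pos (by positivity)] at a3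
    have a4 : Real.exp (Real.log (1 - t) * -α) ≤ Real.exp (2 * α * t) :=
      Real.exp_le_exp.2 (by nlinarith)
    linarith
  have key : ∀ j, (1 - t) * ‖y - x j‖ ≤ ‖z - x j‖ ∧ 0 < ‖y - x j‖ := fun j => by
    have a0 : 0 < ‖y - x j‖ := norm_pos_iff.2 (sub_ne_zero.2 fun e => hy ⟨j, e.symm⟩)
    have a1 : ‖y - x j‖ ^ (-α) ≤ B := (Finset.single_le_sum (f := fun j => ‖y - x j‖ ^ (-α))
      (fun _ _ => by positivity) (Finset.mem_univ j)).trans hS
    have a2 := Real.rpow_le_rpow_of_nonpos (by positivity) a1 (by simpa using hα.le : -α⁻¹ ≤ 0)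
    rw [← Real.rpow_mul a0.le, show -α * -α⁻¹ = 1 by field_simp, Real.rpow_one] at a2
    have a3 := norm_sub_le_norm_sub_add_norm_sub y z (x j)
    rw [norm_sub_rev y z] at a3
    exact ⟨by nlinarith [mul_le_mul_of_nonneg_left a2 t0.le], a0⟩
  have hz' : z ∉ range x := by
    rintro ⟨j, rfl⟩
    have := key j
    simp only [sub_self, norm_zero] at this
    nlinarith [mul_pos (by linarith : 0 < 1 - t) this.2]
  have hs : ∑ j, ‖z - x j‖ ^ (-α) ≤ (1 + 4 * α * t) * ∑ j, ‖y - x j‖ ^ (-α) := by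
    rw [Finset.mul_sum]
    refine Finset.sum_le_sum fun j _ => ?_
    refine (Real.rpow_le_rpow_of_nonpos (mul_pos (by linarith) (key j).2) (key j).1
      (by linarith)).trans ?_
    rw [Real.mul_rpow (by linarith) (norm_nonneg _)]
    exact mul_le_mul_of_nonneg_right t4 (by positivity)
  simp only [F, if_neg hy, if_neg hz']
  calc _ ≤ Real.exp (1 + -∑ j, ‖z - x j‖ ^ (-α)) := Real.exp_le_exp.2 (by
        nlinarith [mul_le_mul_of_nonneg_left hS (by positivity : 0 ≤ 4 * α * t)])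
    _ ≤ _ := by
      rw [Real.exp_add]
      exact mul_le_mul_of_nonneg_right (by linarith [Real.exp_one_lt_d9]) (Real.exp_pos _).le

noncomputable def box (d L : ℕ) : Finset (Fin d → ℤ) := Fintype.piFinset fun _ => Finset.Icc (-L) L

lemma box_card (d L : ℕ) : (box d L).card = (2 * L + 1) ^ d := by
  have : (Finset.Icc (-L : ℤ) L).card = 2 * L + 1 := by simp; omega
  simp only [box, Fintype.card_piFinset, this]; simp

lemma net {K : Set (E d)} (hne : K.Nonempty) {R : ℕ} (hR : ∀ x ∈ K, ‖x‖ ≤ R) (m : ℕ) (hm : 0 < m) :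
    ∃ z : box d (R * m) → E d, (∀ k, z k ∈ K) ∧ ∀ y ∈ K, ∃ k, ‖z k - y‖ ≤ d / m := by
  classical
  have hm' : (0 : ℝ) < m := by exact_mod_cast hm
  let φ : E d → Fin d → ℤ := fun y i => ⌊y i * m⌋
  refine ⟨fun k => if h : ∃ y ∈ K, φ y = k then h.choose else hne.some, fun k => ?_, fun y hy => ?_⟩
  · beta_reduce
    split_ifs with h
    · exact h.choose_spec.1
    · exact hne.some_mem
  · have hk : φ y ∈ box d (R * m) := by
      refine Fintype.mem_piFinset.2 fun i => Finset.mem_Icc.2 ?_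
      have := abs_le.1 ((PiLp.norm_apply_le y i).trans (hR y hy))
      constructor
      · rw [Int.le_floor]; push_cast; nlinarith [this.1]
      · rw [← Int.lt_add_one_iff, Int.floor_lt]; push_cast; nlinarith [this.2]
    have h : ∃ y' ∈ K, φ y' = φ y := ⟨y, hy, rfl⟩
    refine ⟨⟨φ y, hk⟩, ?_⟩
    simp only [dif_pos h]
    have h1 := h.choose_spec.2
    generalize h.choose = w at h1
    refine (abs_le_of_sq_le_sq' ?_ (by positivity)).2
    rw [EuclideanSpace.real_norm_sq_eq]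
    have : ∀ i ∈ (Finset.univ : Finset (Fin d)), (w - y) i ^ 2 ≤ (1 / m) ^ 2 := fun i _ => by
      have a := Int.abs_sub_lt_one_of_floor_eq_floor (congrFun h1 i)
      rw [← sub_mul, abs_mul, abs_of_pos hm', ← lt_div_iff₀ hm'] at a
      exact sq_le_sq' (abs_lt.1 a).1.le (abs_lt.1 a).2.le
    refine (Finset.sum_le_card_nsmul _ _ _ this).trans ?_
    simp only [Finset.card_univ, Fintype.card_fin, nsmul_eq_mul]
    have : (d : ℝ) ≤ d ^ 2 := by exact_mod_cast Nat.le_self_pow two_ne_zero d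
    calc (d : ℝ) * (1 / m) ^ 2 ≤ d ^ 2 * (1 / m) ^ 2 := by gcongr
      _ = _ := by ring

lemma F_bd {m : ℕ} (x : Fin m → E d) (y : E d) : 0 ≤ F α x y ∧ F α x y ≤ 1 := by
  unfold F
  split_ifs
  · norm_num
  · exact ⟨(Real.exp_pos _).le, Real.exp_le_one_iff.2
      (neg_nonpos.2 (Finset.sum_nonneg fun _ _ => by positivity))⟩

lemma F_meas {m : ℕ} (x : Fin m → E d) : Measurable (F α x) :=
  Measurable.ite (finite_range x).measurableSet measurable_const (by fun_prop)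

lemma meas {K : Set (E d)} (T : ℕ → Type) [∀ n, Fintype (T n)] (N : ℕ → ℕ) (hN : ∀ n, 0 < N n)
    (hT : ∀ n, Fintype.card (T n) = N n) (z : ∀ n, T n → E d) (z1 : ∀ n k, z n k ∈ K) :
    ∃ μ : Measure (E d), IsFiniteMeasure μ ∧ Discrete K μ ∧ ∀ (n : ℕ) (k : T n), ∀ g : E d → ℝ, Measurable g →
      (∀ v, 0 ≤ g v ∧ g v ≤ 1) → 1 / ((n : ℝ) + 1) ^ 2 / N n * g (z n k) ≤ ∫ v in K, g v ∂μ := by
  set c : ℕ → ℝ := fun n => 1 / ((n : ℝ) + 1) ^ 2 / N n with hc
  have N0 : ∀ n, (0 : ℝ) < N n := fun n => by exact_mod_cast hN n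
  have c0 : ∀ n, 0 < c n := fun n => div_pos (by positivity) (N0 n)
  set μ : Measure (E d) := Measure.sum fun k : Σ n : ℕ, T n =>
    ENNReal.ofReal (c k.1) • Measure.dirac (z k.1 k.2) with hμ
  have hfin : IsFiniteMeasure μ := ⟨by
    rw [hμ, Measure.sum_apply _ MeasurableSet.univ, ENNReal.tsum_sigma']
    simp only [Measure.smul_apply, measure_univ, smul_eq_mul, mul_one, tsum_fintype,
      Finset.sum_const, Finset.card_univ, hT, nsmul_eq_mul]
    have : ∀ n : ℕ, (N n : ℝ≥0∞) * ENNReal.ofReal (c n) =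
        ENNReal.ofReal (1 / ((n : ℝ) + 1) ^ 2) := fun n => by
      rw [← ENNReal.ofReal_natCast, ← ENNReal.ofReal_mul (Nat.cast_nonneg _), hc,
        mul_div_cancel₀ _ (N0 n).ne']
    simp only [this]
    have hs : Summable fun n : ℕ => 1 / ((n : ℝ) + 1) ^ 2 := by
      exact_mod_cast (summable_nat_add_iff 1).2 (Real.summable_one_div_nat_pow.2 one_lt_two)
    rw [← ENNReal.ofReal_tsum_of_nonneg (fun _ => by positivity) hs]
    exact ENNReal.ofReal_lt_top⟩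
  refine ⟨μ, hfin, ⟨Σ n : ℕ, T n, inferInstance, fun k => z k.1 k.2, fun k => c k.1,
      fun k => ⟨z1 _ _, c0 _⟩, hμ⟩,
    fun n k g hg hb => ?_⟩
  have hi : Integrable g (μ.restrict K) :=
    (integrable_const (1 : ℝ)).mono' hg.aestronglyMeasurable
      (Eventually.of_forall fun v => by rw [Real.norm_of_nonneg (hb v).1]; exact (hb v).2)
  have hle := Measure.restrict_mono_measure (Measure.le_sum (fun k : Σ n : ℕ, T n =>
    ENNReal.ofReal (c k.1) • Measure.dirac (z k.1 k.2)) ⟨n, k⟩) K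
  refine le_trans (le_of_eq ?_) (integral_mono_measure hle
    (Eventually.of_forall fun v => (hb v).1) hi)
  classical
  rw [Measure.restrict_smul, integral_smul_measure, restrict_dirac, if_pos (z1 n k),
    integral_dirac, ENNReal.toReal_ofReal (c0 n).le, smul_eq_mul]

lemma lim {A : ℝ} (hA : 0 < A) (T : ℕ) :
    Tendsto (fun n : ℕ => (A * ((n : ℝ) + 1) ^ T) ^ (1 / n : ℝ)) atTop (𝓝 1) := by
  have t0 : Tendsto (fun n : ℕ => (n : ℝ) + 1) atTop atTop :=
    tendsto_atTop_add_const_right _ _ tendsto_natCast_atTop_atTop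
  have t1 := (Real.tendsto_pow_log_div_mul_add_atTop 1 (-1) 1 one_ne_zero).comp t0
  have t2 := (Real.tendsto_pow_log_div_mul_add_atTop 1 (-1) 0 one_ne_zero).comp t0
  have t3 := (Real.continuous_exp.tendsto _).comp
    ((t2.const_mul (Real.log A)).add (t1.const_mul (T : ℝ)))
  simp only [mul_zero, add_zero, Real.exp_zero] at t3
  refine t3.congr fun n => ?_
  rw [Real.rpow_def_of_pos (by positivity), Real.log_mul (by positivity) (by positivity),
    Real.log_pow ((n : ℝ) + 1)]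
  simp only [Function.comp]
  congr 1
  ring

lemma del (hα : 0 < α) {C : ℝ} (C1 : 1 ≤ C) {q D : ℕ} (hq : 3 * (1 + α⁻¹) ≤ q)
    (hD : 4 * (α + 1) * d * C ^ (1 + α⁻¹) < D) (n : ℕ) :
    (d : ℝ) / (D * (n + 1) ^ q : ℕ) ≤
      1 / (4 * (α + 1) * (C * (n + 1) ^ 3)) * (C * (n + 1) ^ 3) ^ (-α⁻¹) := by
  set B : ℝ := C * (n + 1) ^ 3 with hB
  have D0 : (0 : ℝ) < D := lt_of_le_of_lt (by positivity) hD
  have n1 : (1 : ℝ) ≤ n + 1 := by linarith [Nat.cast_nonneg (α := ℝ) n]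
  have B1 : 1 ≤ B := one_le_mul_of_one_le_of_one_le C1 (one_le_pow₀ n1)
  have e : 1 / (4 * (α + 1) * B) * B ^ (-α⁻¹) = 1 / (4 * (α + 1) * B ^ (1 + α⁻¹)) := by
    rw [Real.rpow_add (by linarith), Real.rpow_one, Real.rpow_neg (by linarith)]
    field_simp
  have e2 : B ^ (1 + α⁻¹) ≤ C ^ (1 + α⁻¹) * ((n : ℝ) + 1) ^ q := by
    rw [hB, Real.mul_rpow (by linarith) (by positivity), ← Real.rpow_natCast _ 3,
      ← Real.rpow_mul (by linarith), ← Real.rpow_natCast _ q]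
    exact mul_le_mul_of_nonneg_left (Real.rpow_le_rpow_of_exponent_le n1 (by exact_mod_cast hq))
      (by positivity)
  push_cast
  rw [e, div_le_div_iff₀ (by positivity) (by positivity)]
  calc (d : ℝ) * (4 * (α + 1) * B ^ (1 + α⁻¹)) ≤
        d * (4 * (α + 1) * (C ^ (1 + α⁻¹) * ((n : ℝ) + 1) ^ q)) := by gcongr
    _ = 4 * (α + 1) * d * C ^ (1 + α⁻¹) * ((n : ℝ) + 1) ^ q := by ring
    _ ≤ _ := by rw [one_mul]; gcongr

lemma cnt (R D q d n : ℕ) : (1 : ℝ) ≤ (2 * (R * D) + 1) ^ d * ((n : ℝ) + 1) ^ (2 + q * d) *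
    (1 / ((n : ℝ) + 1) ^ 2 / ((2 * (R * (D * (n + 1) ^ q)) + 1) ^ d : ℕ)) := by
  have n1 : (1 : ℝ) ≤ n + 1 := by linarith [Nat.cast_nonneg (α := ℝ) n]
  push_cast
  rw [div_div, mul_one_div, one_le_div (by positivity), pow_add, pow_mul,
    mul_left_comm ((2 * (R * D) + 1 : ℝ) ^ d), ← mul_pow]
  gcongr
  nlinarith [one_le_pow₀ n1 (n := q)]

theorem result (d : ℕ) (α : ℝ) (hα : 0 < α) (K : Set (E d)) (hK : IsCompact K) (h : PosCap α K) :
    ∃ μ : Measure (E d), IsFiniteMeasure μ ∧ Discrete K μ ∧ BM α K μ := by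
  obtain ⟨C, C1, hC⟩ := good hα h
  have hne : K.Nonempty := by
    obtain ⟨y, hy, -⟩ := hC 0 0 le_rfl Fin.elim0
    exact ⟨y, hy⟩
  obtain ⟨R0, hR0⟩ := hK.isBounded.exists_norm_le
  obtain ⟨R, hR⟩ := exists_nat_ge R0
  obtain ⟨q, hq⟩ := exists_nat_ge (3 * (1 + α⁻¹))
  obtain ⟨D, hD⟩ := exists_nat_gt (4 * (α + 1) * d * C ^ (1 + α⁻¹))
  have D0 : 0 < D := by
    have : (0 : ℝ) < D := lt_of_le_of_lt (by positivity) hD
    exact_mod_cast this
  choose z z1 z2 using fun n : ℕ => net hne (fun x hx => (hR0 x hx).trans hR) (D * (n + 1) ^ q)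
    (by positivity)
  obtain ⟨μ, m1, m2, m3⟩ := meas (fun n => box d (R * (D * (n + 1) ^ q)))
    (fun n => (2 * (R * (D * (n + 1) ^ q)) + 1) ^ d) (fun n => by positivity)
    (fun n => by rw [Fintype.card_coe, box_card]) z z1
  refine ⟨μ, m1, m2, fun n => 3 * (2 * (R * D) + 1) ^ d * ((n : ℝ) + 1) ^ (2 + q * d),
    fun n => by positivity, lim (by positivity) _, fun n _ x _ y hy => ?_⟩
  have n1 : (1 : ℝ) ≤ n + 1 := by linarith [Nat.cast_nonneg (α := ℝ) n]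
  have B1 : 1 ≤ C * (n + 1) ^ 3 := one_le_mul_of_one_le_of_one_le C1 (one_le_pow₀ n1)
  have hw : ∃ w ∈ K, w ∉ range x ∧ ∑ j, ‖w - x j‖ ^ (-α) ≤ C * (n + 1) ^ 3 ∧
      F α x y ≤ F α x w := by
    obtain ⟨w, w1, w2, w3⟩ := hC n (n - 1) (Nat.sub_le _ _) x
    by_cases hy1 : y ∈ range x
    · exact ⟨w, w1, w2, w3, by rw [F, if_pos hy1]; exact (F_bd x w).1⟩
    by_cases hy2 : ∑ j, ‖y - x j‖ ^ (-α) ≤ C * (n + 1) ^ 3
    · exact ⟨y, hy, hy1, hy2, le_rfl⟩
    · exact ⟨w, w1, w2, w3, by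
        rw [F, F, if_neg hy1, if_neg w2]; exact Real.exp_le_exp.2 (by linarith)⟩
  obtain ⟨w, w1, w2, w3, w4⟩ := hw
  obtain ⟨k, hk⟩ := z2 n w w1
  have a1 := near hα x B1 w2 w3 (hk.trans (del hα C1 hq hD n))
  have a2 := m3 n k _ (F_meas (α := α) x) (F_bd x)
  have a3 := cnt R D q d n
  have a4 := (F_bd (α := α) x (z n k)).1
  have a5 : (0 : ℝ) ≤ (2 * (R * D) + 1) ^ d * ((n : ℝ) + 1) ^ (2 + q * d) := by positivity
  have a6 := mul_le_mul_of_nonneg_left a2 a5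
  have a7 := mul_le_mul_of_nonneg_right a3 a4
  beta_reduce
  rw [mul_assoc] at a7
  rw [mul_assoc, mul_assoc, ← mul_assoc ((2 * (R * D) + 1 : ℝ) ^ d)]
  linarith

end Pool.Agent.Results.MP_a7495c_an.Disc
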